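import Pool.Agent.Helper99.PG.Goals

/-!
PROJECT C2, target (a), packet PG-SC (helper85).
-/

namespace Pool.Agent.Helper85.PG

open Pool.Agent.Helper36.SC Pool.Agent.Helper37.Arb Pool.Agent.Helper52.C2
open Pool.Agent.Helper99.PG
open scoped Classical

/-- the difference of two choice functions -/
noncomputable def dif {V : Type} (A A' : V → Bool) : Option V → ℝ
  | none => 0
  | some v => (if A v then 1 else 0) - (if A' v then 1 else 0)

theorem inv_zpow {E : Type} (α : Equiv.Perm E) (f : E → ℝ) (h : ∀ e, f (α e) = f e) (n : ℤ)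
    (e : E) : f ((α ^ n) e) = f e := by
  induction n using Int.induction_on with
  | zero => simp
  | succ n ih =>
    rw [add_comm, zpow_add, zpow_one, Equiv.Perm.mul_apply, h, ih]
  | pred n ih =>
    have : α ((α ^ (-(n : ℤ) - 1)) e) = (α ^ (-(n : ℤ))) e := by
      rw [← Equiv.Perm.mul_apply, ← zpow_one_add]
      congr 2
      ring
    rw [← h, this, ih]

theorem inv_same {E : Type} (α : Equiv.Perm E) (f : E → ℝ) (h : ∀ e, f (α e) = f e) {e e' : E}
    (hs : α.SameCycle e e') : f e = f e' := by
  obtain ⟨n, rfl⟩ := hs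
  exact (inv_zpow α f h n e).symm

section

variable {V : Type} [Fintype V] [DecidableEq V] (G : BG (Option V)) (W : Finset V)
  (A A' : V → Bool)

theorem chosen_real (C : G.C) :
    ((chosen G W A {C} : ℤ) : ℝ) = ∑ v ∈ W, if pick G A v = C then (1 : ℝ) else 0 := by
  unfold chosen
  rw [Finset.card_filter]
  push_cast
  refine Finset.sum_congr rfl fun v _ => ?_
  simp only [Finset.mem_singleton]

theorem diff_real (hA : ∀ v, v ∉ W → A v = true) (hA' : ∀ v, v ∉ W → A' v = true) (C : G.C) :
    ((chosen G W A {C} : ℤ) : ℝ) - ((chosen G W A' {C} : ℤ) : ℝ)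
      = ∑ v, ((if pick G A v = C then (1 : ℝ) else 0) - if pick G A' v = C then (1 : ℝ) else 0) := by
  rw [chosen_real, chosen_real, ← Finset.sum_sub_distrib]
  refine Finset.sum_subset (Finset.subset_univ W) fun v _ hv => ?_
  have : pick G A v = pick G A' v := by
    unfold pick
    rw [hA v hv, hA' v hv]
  rw [this, sub_self]

theorem left_diff (hA : ∀ v, v ∉ W → A v = true) (hA' : ∀ v, v ∉ W → A' v = true) (C : G.C)
    (hC : G.left C) :
    ((chosen G W A {C} : ℤ) : ℝ) - ((chosen G W A' {C} : ℤ) : ℝ)
      = ∑ e : Option V, (if G.lf e = C then (1 : ℝ) else 0) * dif A A' e := by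
  rw [diff_real G W A A' hA hA', Fintype.sum_option]
  have h0 : dif A A' none = 0 := rfl
  rw [h0, mul_zero, zero_add]
  refine Finset.sum_congr rfl fun v _ => ?_
  have hr : G.rt (some v) ≠ C := fun h => G.rt_left (some v) (by rw [h]; exact hC)
  have hd : dif A A' (some v) = (if A v then 1 else 0) - (if A' v then 1 else 0) := rfl
  rw [hd]
  unfold pick
  cases A v <;> cases A' v <;> simp [hr]

theorem right_diff (hA : ∀ v, v ∉ W → A v = true) (hA' : ∀ v, v ∉ W → A' v = true) (C : G.C)
    (hC : ¬ G.left C) :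
    ((chosen G W A {C} : ℤ) : ℝ) - ((chosen G W A' {C} : ℤ) : ℝ)
      = - ∑ e : Option V, (if G.rt e = C then (1 : ℝ) else 0) * dif A A' e := by
  rw [diff_real G W A A' hA hA', Fintype.sum_option]
  have h0 : dif A A' none = 0 := rfl
  rw [h0, mul_zero, zero_add, ← Finset.sum_neg_distrib]
  refine Finset.sum_congr rfl fun v _ => ?_
  have hr : G.lf (some v) ≠ C := fun h => hC (by rw [← h]; exact G.lf_left (some v))
  have hd : dif A A' (some v) = (if A v then 1 else 0) - (if A' v then 1 else 0) := rfl
  rw [hd]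
  unfold pick
  cases A v <;> cases A' v <;> simp [hr]

end

theorem sum_cob {E : Type} [Fintype E] (π : Equiv.Perm E) (f g : E → ℝ)
    (hf : ∀ e, f (π e) = f e) : ∑ e, f e * (g (π e) - g e) = 0 := by
  have h1 : ∑ e, f e * g (π e) = ∑ e, f e * g e := by
    rw [← Equiv.sum_comp π (fun e => f e * g e)]
    exact Finset.sum_congr rfl fun e _ => by rw [hf]
  simp only [mul_sub, Finset.sum_sub_distrib]
  rw [h1, sub_self]

/-- a function that is constant on the fibres of `l` has sum zero against `i`, if `i` has sum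
zero on all fibres. -/
theorem sum_fib {E C : Type} [Fintype E] [Fintype C] (l : E → C) (f i : E → ℝ)
    (hf : ∀ e e', l e = l e' → f e = f e')
    (hi : ∀ c, ∑ e, (if l e = c then (1 : ℝ) else 0) * i e = 0) : ∑ e, f e * i e = 0 := by
  have h1 : ∀ e, f e * i e = ∑ c, (if l e = c then (1 : ℝ) else 0) * (f e * i e) := fun e => by
    rw [Finset.sum_eq_single (l e)]
    · rw [if_pos rfl, one_mul]
    · intro c _ hc
      rw [if_neg (Ne.symm hc), zero_mul]
    · intro h
      exact absurd (Finset.mem_univ _) h
  rw [Finset.sum_congr rfl fun e _ => h1 e, Finset.sum_comm]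
  refine Finset.sum_eq_zero fun c _ => ?_
  by_cases hc : ∃ e₀, l e₀ = c
  · obtain ⟨e₀, rfl⟩ := hc
    have h2 : ∀ e, (if l e = l e₀ then (1 : ℝ) else 0) * (f e * i e)
        = f e₀ * ((if l e = l e₀ then (1 : ℝ) else 0) * i e) := fun e => by
      by_cases h : l e = l e₀
      · rw [if_pos h, hf e e₀ h]
        ring
      · rw [if_neg h]
        ring
    rw [Finset.sum_congr rfl fun e _ => h2 e, ← Finset.mul_sum, hi, mul_zero]
  · refine Finset.sum_eq_zero fun e _ => ?_
    rw [if_neg (fun h => hc ⟨e, h⟩), zero_mul]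

theorem sameCount : GoalSameCount := by
  intro V _ _ H G hG W A A' hA hA'
  obtain ⟨hl, hr, hc⟩ := hG
  have hlα : ∀ e, G.lf (H.α e) = G.lf e := fun e =>
    (hl _ _).2 ((Equiv.Perm.sameCycle_apply_left).2 (Equiv.Perm.SameCycle.refl _ _))
  have hrβ : ∀ e, G.rt (H.β e) = G.rt e := fun e =>
    (hr _ _).2 ((Equiv.Perm.sameCycle_apply_left).2 (Equiv.Perm.SameCycle.refl _ _))
  constructor
  · intro hcnt
    have hz : ∀ C, ((chosen G W A {C} : ℤ) : ℝ) - ((chosen G W A' {C} : ℤ) : ℝ) = 0 := fun C => by
      rw [hcnt C, sub_self]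
    obtain ⟨g, hg1, hg2⟩ := H.pot (dif A A') (fun f hf => by
      refine sum_fib G.lf f (dif A A') (fun e e' h => inv_same H.α f hf ((hl e e').1 h))
        fun c => ?_
      by_cases hC : G.left c
      · rw [← left_diff G W A A' hA hA' c hC, hz]
      · refine Finset.sum_eq_zero fun e _ => ?_
        rw [if_neg (fun h => hC (by rw [← h]; exact G.lf_left e)), zero_mul])
      (fun f hf => by
      refine sum_fib G.rt f (dif A A') (fun e e' h => inv_same H.β f hf ((hr e e').1 h))
        fun c => ?_
      by_cases hC : G.left c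
      · refine Finset.sum_eq_zero fun e _ => ?_
        rw [if_neg (fun h => G.rt_left e (by rw [h]; exact hC)), zero_mul]
      · have := right_diff G W A A' hA hA' c hC
        rw [hz] at this
        linarith)
    refine ⟨fun e => g e - g none, fun e => ?_, sub_self _, ?_, fun v => ?_⟩
    · change g (H.β e) - g none = g (H.α e) - g none
      rw [hg2]
    · change g (H.α none) - g none = 0
      rw [← hg1]
      rfl
    · change _ = (g (H.α (some v)) - g none) - (g (some v) - g none)
      rw [sub_sub_sub_cancel_right, ← hg1]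
      rfl
  · rintro ⟨g, hg1, hg2, hg3, hg4⟩ C
    have hd : ∀ e, dif A A' e = g (H.α e) - g e := by
      rintro (_ | v)
      · rw [hg2, hg3, sub_zero]
        rfl
      · exact hg4 v
    have key : ((chosen G W A {C} : ℤ) : ℝ) - ((chosen G W A' {C} : ℤ) : ℝ) = 0 := by
      by_cases hC : G.left C
      · rw [left_diff G W A A' hA hA' C hC]
        simp only [hd]
        exact sum_cob H.α (fun e => if G.lf e = C then (1 : ℝ) else 0) g fun e => by
          simp only [hlα]
      · rw [right_diff G W A A' hA hA' C hC]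
        simp only [hd]
        have h2 : ∀ e, g (H.α e) - g e = g (H.β e) - g e := fun e => by rw [hg1]
        simp only [h2]
        rw [sum_cob H.β (fun e => if G.rt e = C then (1 : ℝ) else 0) g fun e => by
          simp only [hrβ], neg_zero]
    have := sub_eq_zero.1 key
    exact_mod_cast this

end Pool.Agent.Helper85.PG
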